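import Pool.Agent.E8helper30.RG.Edges
import Pool.Agent.E8helper30.RG.Stm3

/-! MP_df8ddc_co, project RG3 of helper30, piece CORE -/

set_option autoImplicit false

namespace Pool.Agent.E8helper65.RG

open Pool.Agent.E8helper30.RG

open scoped Classical in
theorem t_CORE : S_CORE := by
  intro n q G hn hE
  let P : ℕ → Prop := fun m => ∃ W : Finset (Fin n), W.Nonempty ∧ W.card = m ∧
    2 * (q + 1) * W.card ≤ (darts G W).card
  have hex : ∃ m, P m := by
    refine ⟨n, Finset.univ, ?_, by simp, ?_⟩
    · exact ⟨⟨0, hn⟩, Finset.mem_univ _⟩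
    · rw [darts_univ, Finset.card_univ, Fintype.card_fin]
      nlinarith
  obtain ⟨W, hW0, hWc, hWd⟩ := Nat.find_spec hex
  have hmin : ∀ m, P m → Nat.find hex ≤ m := fun m hm => Nat.find_min' hex hm
  refine ⟨(↑W : Set (Fin n)), by simpa using hW0, ?_⟩
  intro u hu
  have hu' : u ∈ W := by simpa using hu
  have hset : {w : Fin n | w ∈ (↑W : Set (Fin n)) ∧ G.Adj u w} =
      ↑(W.filter fun w => G.Adj u w) := by
    ext w; simp
  rw [hset, Set.ncard_coe_finset]
  change q + 2 ≤ dg G W u
  by_contra hcon
  rw [not_le] at hcon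
  have h1 := darts_erase G W u hu'
  have hc1 : (W.erase u).card + 1 = W.card := Finset.card_erase_add_one hu'
  rcases (W.erase u).eq_empty_or_nonempty with he | he
  · have hWu : W = {u} := by
      rw [← Finset.insert_erase hu', he]; rfl
    have hd : dg G W u = 0 := by
      rw [hWu]
      unfold dg
      rw [Finset.card_eq_zero, Finset.filter_eq_empty_iff]
      intro w hw
      rw [Finset.mem_singleton] at hw
      subst hw
      exact G.irrefl
    have hdd : (darts G (W.erase u)).card = 0 := by
      rw [he]; simp [darts]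
    have hcard : W.card = 1 := by rw [hWu]; simp
    rw [hcard] at hWd
    omega
  · have hP : P (W.erase u).card := by
      refine ⟨W.erase u, he, rfl, ?_⟩
      have : 2 * (q + 1) * W.card = 2 * (q + 1) * (W.erase u).card + 2 * (q + 1) := by
        rw [← hc1]; ring
      omega
    have := hmin _ hP
    omega

end Pool.Agent.E8helper65.RG
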